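import Pool.Agent.Helper8_LeonardPos.Main
import Pool.Agent.Helper8_Leonard.Neg

set_option autoImplicit false

/-!
Leonard triples with `β = 2` and the equitable basis of `sl₂`: the assertion of the problem holds
on spaces of dimension `d + 1` exactly for `d ≠ 2`.
-/

namespace Pool.Agent.Results.MP_44ae8d_al.CompleteAnswer

open Module Pool.Agent.Helper8Leonard

universe u v

/-- `A, B, C` have the equitable form: for some irreducible `sl₂`-module structure on `V` and
some equitable basis `x, y, z` of `sl₂`, the map `A` acts as a linear combination of `1, x, y, xy`,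
the map `B` as one of `1, y, z, yz` and the map `C` as one of `1, z, x, zx`. -/
def HasEquitableForm {K : Type u} [Field K] {V : Type v} [AddCommGroup V] [Module K V]
    (A B C : Module.End K V) : Prop :=
  ∃ (_ : LieRingModule (SL2 K) V) (_ : LieModule K (SL2 K) V),
    LieModule.IsIrreducible K (SL2 K) V ∧ ∃ x y z : SL2 K, IsEquitable x y z ∧
      A ∈ Submodule.span K ({1, LieModule.toEnd K (SL2 K) V x, LieModule.toEnd K (SL2 K) V y,
        LieModule.toEnd K (SL2 K) V x * LieModule.toEnd K (SL2 K) V y} : Set (Module.End K V)) ∧
      B ∈ Submodule.span K ({1, LieModule.toEnd K (SL2 K) V y, LieModule.toEnd K (SL2 K) V z,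
        LieModule.toEnd K (SL2 K) V y * LieModule.toEnd K (SL2 K) V z} : Set (Module.End K V)) ∧
      C ∈ Submodule.span K ({1, LieModule.toEnd K (SL2 K) V z, LieModule.toEnd K (SL2 K) V x,
        LieModule.toEnd K (SL2 K) V z * LieModule.toEnd K (SL2 K) V x} : Set (Module.End K V))

/-- On a vector space of dimension `d + 1` over an algebraically closed field of characteristic
zero, every Leonard triple `A, B, C` whose Leonard pair `A, B` satisfies `β = 2` has the equitable
form if and only if `d ≠ 2`. -/
theorem result {K : Type u} [Field K] [IsAlgClosed K] [CharZero K]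
    {V : Type v} [AddCommGroup V] [Module K V] (d : ℕ) (hV : finrank K V = d + 1) :
    (∀ A B C : Module.End K V, IsLeonardPair d A B → BetaEqTwo d A B → IsLeonardTriple d A B C →
      HasEquitableForm A B C) ↔ d ≠ 2 := by
  constructor
  · rintro h rfl
    obtain ⟨A, B, C, h1, h2, h3, h4⟩ := exists_counterexample hV
    obtain ⟨i1, i2, hirr, x, y, z, hE, hA, hB, hC⟩ := h A B C h1 h2 h3
    exact h4 i1 i2 hirr x y z hE ⟨hA, hB, hC⟩
  · intro hd A B C _ h2 h3
    exact Pool.Agent.Helper8LeonardPos.pos hd h2 h3

end Pool.Agent.Results.MP_44ae8d_al.CompleteAnswer
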